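import Pool.Agent.QUD.StmtsL
import Pool.Agent.Helper5_PM.M133

/-!
# Squad QUD, row EQ1: the equation at the first level
-/

set_option autoImplicit false

namespace Pool.Agent.QUD.H60

open MeasureTheory Complex Filter Topology ProbabilityTheory Pool.Agent.H16Iso Pool.Agent.H62T
open Pool.Agent.H16F (Sublin ind)
open Pool.Agent.AEU Pool.Agent.XQ
open Pool.Agent.AEU.H35 (sublin_ae Adm Tr Lap_sub Lap_add Lap_congr Lap_zero small_congr)
open Pool.Agent.XQ.H33 Pool.Agent.QUD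

/-- the remainder for short bodies -/
noncomputable def Wr (X : Finset HP) (q : (ℂ → ℝ) → ℝ) (N : Finset (Finset HP)) (A t : ℝ)
    (ω : Sp) : ℝ :=
  ch A t ω * ((VX X (sh t ω) - q (sh t ω)) - ∑ S ∈ N, Zs S (sh t ω))

theorem side (hmsx : MsxStatement) (hjlb : JlbStatement) (hfb : FbStmt) {X : Finset HP}
    {q : (ℂ → ℝ) → ℝ} {L A δ' m C : ℝ} {N : Finset (Finset HP)} {U : Finset ℂ} (hL : 0 < L)
    (hLA : L < A) (hAδ : A ≤ L + δ') (hX : Pg X) (hq : Quad X q) (hU : ∀ s ∈ X, s.1 ∈ U)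
    (Uu : ∀ u ∈ U, ‖u‖ = 1) (hN : ∀ S ∈ N, S ⊆ X) (hm : 0 < m)
    (hd : ∀ h : ℂ → ℝ, Sublin h → lam h < L + δ' →
      ((∀ a a', FacePair X L a a' → h a.1 + h a'.1 ≤ L / 2) →
        VX X h = q h + ∑ S ∈ N, Zs S h) ∧
      ∀ a a', FacePair X L a a' → L / 2 < h a.1 + h a'.1 →
        m * (h a.1 + h a'.1 - L / 2) - C * (h a.1 + h a'.1 - L / 2) ^ 2
          ≤ VX X h - q h - ∑ S ∈ N, Zs S h) :
    Gd U (Wr X q N A) ∧ Adm (fun t => ∫ ω, Wr X q N A t ω ∂PP) ∧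
      IsJ X L (Lap fun t => ∫ ω, Wr X q N A t ω ∂PP) := by
  classical
  obtain ⟨gR, vR⟩ := gd_R hmsx hX hq hU
  have hNU : ∀ S ∈ N, ∀ s ∈ S, s.1 ∈ U := fun S hS s hs => hU s (hN S hS hs)
  have gZ : Gd U fun t ω => ∑ S ∈ N, Zs S (sh t ω) :=
    Gd.sum N _ fun S hS => gd_Zs (hNU S hS)
  have vZ : Vn U fun t ω => ∑ S ∈ N, Zs S (sh t ω) :=
    Vn.sum N (fun S t ω => Zs S (sh t ω)) fun S hS => vn_Zs (hNU S hS)
  have gW : Gd U (Wr X q N A) := (gR.sub gZ).bmul (ch_meas A) (ch_le A)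
  have vW : Vn U (Wr X q N A) := (vR.sub vZ).mul_left _
  have aW : Adm fun t => ∫ ω, Wr X q N A t ω ∂PP := by
    obtain ⟨m', hm', hv⟩ := vW
    exact gW.adm Uu hm' hv
  have hgood : ∀ᵐ ω ∂PP, Sublin (hs ω) ∧ ll ω = lam (hs ω) := by
    filter_upwards [sublin_ae, ll_ae] with ω k1 k2
    exact ⟨k1, k2⟩
  have hdX : ∀ t ω, Sublin (hs ω) → Real.sqrt t * lam (hs ω) < A →
      ((∀ a a', FacePair X L a a' → sh t ω a.1 + sh t ω a'.1 ≤ L / 2) →
        VX X (sh t ω) = q (sh t ω) + ∑ S ∈ N, Zs S (sh t ω)) ∧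
      ∀ a a', FacePair X L a a' → L / 2 < sh t ω a.1 + sh t ω a'.1 →
        m * (sh t ω a.1 + sh t ω a'.1 - L / 2) - C * (sh t ω a.1 + sh t ω a'.1 - L / 2) ^ 2
          ≤ VX X (sh t ω) - q (sh t ω) - ∑ S ∈ N, Zs S (sh t ω) := by
    intro t ω h1 h2
    exact hd (sh t ω) (sublin_sh h1 t) (by rw [lam_sh]; linarith)
  refine ⟨gW, aW, fun hfp => ?_, fun hfp => ?_⟩
  · funext κ
    rw [Pi.zero_apply, ← Lap_zero κ]
    refine Lap_congr (fun t ht => ?_) κ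
    refine integral_eq_zero_of_ae ?_
    filter_upwards [hgood] with ω hω
    obtain ⟨k1, k2⟩ := hω
    unfold Wr
    simp only [Pi.zero_apply]
    rcases lt_or_ge (Real.sqrt t * lam (hs ω)) A with hlt | hge
    · have h1 := (hdX t ω k1 hlt).1 fun a a' h => absurd h (hfp a a')
      rw [h1]
      ring
    · rw [ch_neg k2 hge, zero_mul]
  · obtain ⟨C', -, hC'⟩ := gW.bd
    refine hjlb hfb L A m C C' ((X.filter fun a => ∃ a', FacePair X L a a').image Prod.fst) U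
      (Wr X q N A) hL hLA hm ?_ ?_ gW.meas ?_
    · obtain ⟨a, a', h⟩ := hfp
      exact ⟨a.1, Finset.mem_image_of_mem _ (Finset.mem_filter.2 ⟨h.mem, a', h⟩)⟩
    · intro u hu
      obtain ⟨a, ha, rfl⟩ := Finset.mem_image.1 hu
      exact hX.unit a (Finset.mem_filter.1 ha).1
    · intro t ht
      filter_upwards [hgood] with ω hω
      obtain ⟨k1, k2⟩ := hω
      have eq1 : ∀ a a', FacePair X L a a' → sh t ω a.1 + sh t ω a'.1
          = Real.sqrt t * (hs ω a.1 + hs ω (-a.1)) := by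
        intro a a' h
        unfold sh
        rw [h.opp]
        ring
      refine ⟨hC' t ω, fun hlt => ?_, fun hlt => ⟨fun hall => ?_, ?_⟩⟩
      · unfold Wr
        rw [ch_neg k2 hlt, zero_mul]
      · have h1 := (hdX t ω k1 hlt).1 (by
          intro a a' h
          rw [eq1 a a' h]
          exact hall a.1 (Finset.mem_image_of_mem _ (Finset.mem_filter.2 ⟨h.mem, a', h⟩)))
        unfold Wr
        rw [h1]
        ring
      · intro u hu hlt'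
        obtain ⟨a, ha, rfl⟩ := Finset.mem_image.1 hu
        obtain ⟨-, a', h⟩ := Finset.mem_filter.1 ha
        have h1 := (hdX t ω k1 hlt).2 a a' h (by rw [eq1 a a' h]; exact hlt')
        rw [eq1 a a' h] at h1
        unfold Wr
        rw [ch_pos k2 hlt, one_mul]
        exact h1

theorem eq1 (hdn1 : Dn1Stmt) (hqua : QuaStatement) (hmsx : MsxStatement) (htrx : TrxStatement)
    (hexh : ExhStatement) (hjlb : JlbStatement) : Eq1Stmt := by
  classical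
  intro hfb P Q L δ NP NQ cP cQ KP KQ hL hδ pgP pgQ hpP hpQ hspec
  obtain ⟨qP, hqP⟩ := hqua P pgP
  obtain ⟨qQ, hqQ⟩ := hqua Q pgQ
  obtain ⟨δP, mP, CP, hδP0, hδPδ, hmP, hdP⟩ := hdn1 P qP L δ NP cP KP hL hδ pgP hqP hpP
  obtain ⟨δQ, mQ, CQ, hδQ0, hδQδ, hmQ, hdQ⟩ := hdn1 Q qQ L δ NQ cQ KQ hL hδ pgQ hqQ hpQ
  obtain ⟨A, hA⟩ : ∃ A, A = L + min δP δQ := ⟨_, rfl⟩
  have hLA : L < A := by
    rw [hA]
    have := lt_min hδP0 hδQ0
    linarith
  have hAP : A ≤ L + δP := by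
    rw [hA]
    have := min_le_left δP δQ
    linarith
  have hAQ : A ≤ L + δQ := by
    rw [hA]
    have := min_le_right δP δQ
    linarith
  obtain ⟨U, hU⟩ : ∃ U : Finset ℂ, U = (P ∪ Q).image Prod.fst := ⟨_, rfl⟩
  have UP : ∀ s ∈ P, s.1 ∈ U := fun s hs => by
    rw [hU]; exact Finset.mem_image_of_mem _ (Finset.mem_union_left _ hs)
  have UQ : ∀ s ∈ Q, s.1 ∈ U := fun s hs => by
    rw [hU]; exact Finset.mem_image_of_mem _ (Finset.mem_union_right _ hs)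
  have Uu : ∀ u ∈ U, ‖u‖ = 1 := by
    intro u hu
    rw [hU] at hu
    obtain ⟨s, hs, rfl⟩ := Finset.mem_image.1 hu
    exact (Finset.mem_union.1 hs).elim (pgP.unit s) (pgQ.unit s)
  have OP : One P L ∅ NP ∅ cP U := one_of hL pgP hpP UP Uu
  have OQ : One Q L ∅ NQ ∅ cQ U := one_of hL pgQ hpQ UQ Uu
  obtain ⟨gWP, aWP, jWP⟩ := side hmsx hjlb hfb hL hLA hAP pgP hqP UP Uu
    (fun S hS => (OP.sN S hS).1) hmP hdP
  obtain ⟨gWQ, aWQ, jWQ⟩ := side hmsx hjlb hfb hL hLA hAQ pgQ hqQ UQ Uu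
    (fun S hS => (OQ.sN S hS).1) hmQ hdQ
  refine ⟨Lap fun t => ∫ ω, Wr P qP NP A t ω ∂PP, Lap fun t => ∫ ω, Wr Q qQ NQ A t ω ∂PP,
    jWP, jWQ, ?_⟩
  obtain ⟨gRP, -⟩ := gd_R hmsx pgP hqP UP
  obtain ⟨gRQ, -⟩ := gd_R hmsx pgQ hqQ UQ
  have g1 := OP.gd0 hmsx
  have g2 := OQ.gd0 hmsx
  have hG0 : ∀ (N : Finset (Finset HP)) (c : Finset HP → HP → ℝ) (t : ℝ) (ω : Sp),
      Gn0 N ∅ c t ω = ∑ S ∈ N, Zs S (sh t ω) := by
    intro N c t ω
    unfold Gn0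
    rw [Finset.sum_empty, add_zero]
  -- the error term
  obtain ⟨E, hE⟩ : ∃ E : ℝ → Sp → ℝ, E = fun t ω =>
    Gn0 NP ∅ cP t ω - Gn0 NQ ∅ cQ t ω
      - ((VX P (sh t ω) - qP (sh t ω)) - (VX Q (sh t ω) - qQ (sh t ω)))
      + (Wr P qP NP A t ω - Wr Q qQ NQ A t ω) := ⟨_, rfl⟩
  have gE : Gd U E := by
    rw [hE]
    exact ((g1.sub g2).sub (gRP.sub gRQ)).add (gWP.sub gWQ)
  have hEint : ∀ t, 0 < t → ∫ ω, E t ω ∂PP
      = (Gn1 NP ∅ cP t - Gn1 NQ ∅ cQ t)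
        + (∫ ω, Wr P qP NP A t ω ∂PP - ∫ ω, Wr Q qQ NQ A t ω ∂PP) := by
    intro t ht
    have h1 : ∫ ω, ((VX P (sh t ω) - qP (sh t ω)) - (VX Q (sh t ω) - qQ (sh t ω))) ∂PP = 0 := by
      rw [integral_sub (gRP.integrable t) (gRQ.integrable t)]
      exact sub_eq_zero.2 (hexh P Q qP qQ pgP pgQ hqP hqQ hspec t ht)
    rw [hE]
    simp only
    rw [integral_add (((g1.sub g2).sub (gRP.sub gRQ)).integrable t) ((gWP.sub gWQ).integrable t),
      integral_sub ((g1.sub g2).integrable t) ((gRP.sub gRQ).integrable t),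
      integral_sub (g1.integrable t) (g2.integrable t),
      integral_sub (gWP.integrable t) (gWQ.integrable t), h1, OP.int0 hmsx, OQ.int0 hmsx]
    ring
  have hEv : ∀ t, 0 < t → ∀ᵐ ω ∂PP, Real.sqrt t * lam (hs ω) < A → E t ω = 0 := by
    intro t ht
    filter_upwards [ll_ae] with ω k2 hlt
    have hc : ch A t ω = 1 := ch_pos k2 hlt
    rw [hE]
    simp only [hG0]
    unfold Wr
    rw [hc]
    ring
  have hsmall := gE.small htrx hL.le hLA hEv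
  refine small_congr hsmall ?_
  filter_upwards [eventually_gt_atTop 0] with κ hκ
  rw [Lap_congr hEint κ, Lap_add ((OP.adm1 hmsx).sub (OQ.adm1 hmsx)) (aWP.sub aWQ) hκ,
    Lap_sub (OP.adm1 hmsx) (OQ.adm1 hmsx) hκ, Lap_sub aWP aWQ hκ, OP.lap1 hmsx hκ,
    OQ.lap1 hmsx hκ, Finset.sum_empty, Finset.sum_empty]
  ring

end Pool.Agent.QUD.H60
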