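import Pool.Agent.QUD.StmtsXU
import Pool.Agent.Helper34_QUD.UQA

/-!
Squad QUD (MP_5b0138_an), row XMA (helper60): items of the type A against an arbitrary polygon.
-/

set_option autoImplicit false

namespace Pool.Agent.QUD.H60

open MeasureTheory Filter Topology Real Set Pool.Agent.AEU Pool.Agent.AEU.H12 Pool.Agent.XQ
  Pool.Agent.XQ.U Pool.Agent.QUD.H34

theorem xma (h1 : CoreAStmt) : XmaStmt := by
  intro l A hl hA hlen hc hd
  have htr : ∀ p ∈ (oA l).map tr, p.1 ∈ Ioo (1 : ℝ) 2 ∧ p.2 ∈ Ioo (1 : ℝ) 2 := by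
    intro p hp
    rw [List.mem_map] at hp
    obtain ⟨q, hq, rfl⟩ := hp
    obtain ⟨h1, h2⟩ := mem_oA hq
    have hk := hl q h1
    exact ⟨inv_mem h2.1 hk.2.1, inv_mem h2.2 hk.2.2.2.1⟩
  have hbb : ∀ p ∈ A.map bb, p.1 ∈ Ioo (1 : ℝ) 2 ∧ p.2 ∈ Ioo (1 : ℝ) 2 := by
    intro p hp
    rw [List.mem_map] at hp
    obtain ⟨q, hq, rfl⟩ := hp
    have hk := hA q hq
    unfold OkA at hk
    refine ⟨inv_mem ?_ ?_, inv_mem ?_ ?_⟩
    · linarith [hk.1, hk.2.1]
    · linarith [hk.1, hk.2.1]
    · linarith [hk.2.2.1, hk.2.2.2]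
    · linarith [hk.2.2.1, hk.2.2.2]
  have key := h1 ((oA l).map tr) (A.map bb) (by simpa using hlen) htr hbb
    (by rw [← sum_cA, hc, List.map_map]; rfl)
    (by
      filter_upwards [hd] with z hz
      rw [← sum_dA, hz, List.map_map]; rfl)
  rcases key with ⟨h2, h3⟩ | ⟨p, q, h2, h3, h4⟩
  · left
    rw [List.map_eq_nil_iff] at h2 h3
    exact ⟨h2, h3⟩
  · right
    obtain ⟨p', hp', hpp⟩ := map_tr_one h2
    obtain ⟨q', hq', hqq⟩ : ∃ q', A = [q'] ∧ bb q' = q := by
      cases A with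
      | nil => simp at h3
      | cons a A =>
        cases A with
        | nil =>
          rw [List.map_cons, List.map_nil] at h3
          exact ⟨a, rfl, by simpa using h3⟩
        | cons b A => simp at h3
    have kp := hl p' (mem_oA (l := l) (p := p') (by rw [hp']; simp)).1
    have kq := hA q' (by rw [hq']; simp)
    unfold OkA at kq
    refine ⟨p', q', hp', hq', ?_⟩
    rcases h4 with h4 | h4
    · left
      rw [← hpp, ← hqq] at h4
      have e1 : π / p'.1 = π / (π - q'.1) := congrArg Prod.fst h4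
      have e2 : π / p'.2 = π / (π - q'.2) := congrArg Prod.snd h4
      have r1 := inv_inj kp.1 (by linarith [kq.1, kq.2.1]) e1
      have r2 := inv_inj kp.2.2.1 (by linarith [kq.2.2.1, kq.2.2.2]) e2
      exact ⟨by linarith, by linarith⟩
    · right
      rw [← hpp, ← hqq] at h4
      have e1 : π / p'.1 = π / (π - q'.2) := congrArg Prod.fst h4
      have e2 : π / p'.2 = π / (π - q'.1) := congrArg Prod.snd h4
      have r1 := inv_inj kp.1 (by linarith [kq.2.2.1, kq.2.2.2]) e1
      have r2 := inv_inj kp.2.2.1 (by linarith [kq.1, kq.2.1]) e2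
      exact ⟨by linarith, by linarith⟩

end Pool.Agent.QUD.H60
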